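import Pool.Agent.Helper90.QB.Bel2
import Pool.Agent.Helper87.QB.Rank
import Pool.Agent.Helper9.QB.Glue
import Pool.Agent.Helper55.QB.Res
import Pool.Agent.Helper63.QB.Union
import Pool.Agent.Helper30.QB.Ping

/-!
# Project QB, module L: a further letter
-/

set_option autoImplicit false

namespace Pool.Agent.Helper33.QB

open Set

universe v

variable {Ω : Type} {I : Type v} {α : Ordinal.{0}}

/-- Outside the support of the graph only the trivial path exists. -/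
theorem h28_acts_out {G : I → Ω → Ω → Prop} {A : Set Ω}
    (hA : ∀ i x y, G i x y → x ∈ A ∧ y ∈ A) {g : FreeGroup I} {x y : Ω} (h1 : Acts G g x y)
    (hx : x ∉ A) : g = 1 ∧ y = x := by
  induction h1 with
  | one x => exact ⟨rfl, rfl⟩
  | fwd h2 h3 ih =>
    have h4 := (ih hx).2
    rw [h4] at h3
    exact absurd (hA _ _ _ h3).1 hx
  | bwd h2 h3 ih =>
    have h4 := (ih hx).2
    rw [h4] at h3
    exact absurd (hA _ _ _ h3).2 hx

section L

variable [LinearOrder I] [WellFoundedLT I] {b : I → NmD Ω I} {pn : ℕ → Cnd Ω I}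
  {s p q : Cnd Ω I} {i j m : I}

theorem add_letter (hα : Ind α) (hs : Semi α pn s) (hpn : ∀ n, pn n ∈ VT α b)
    (hle : ∀ n, Le (pn (n + 1)) (pn n)) (hm : m ∈ s.S) (hq : q ∈ V α b m)
    (hB : Bel pn s m q) (hD : Dec (b m) q) {r' : Ω → Ordinal.{0}}
    (hr' : GR (ev (b m) q) (tr q.R (ev (b m) q)) r') (hT : Tall α q.R (ev (b m) q \ s.Y) r')
    {K : Set Ω} (hK : K ∈ q.R) (hmi : m < i) (hmax : ∀ l ∈ s.S, l < i → l ≤ m) :
    ∃ q' ∈ V α b i, Bel pn s i q' ∧ res q' m = q ∧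
      ∀ x ∈ K, ∀ y ∈ K, ∀ g, Acts (BG pn s i q') g x y → Acts (BG pn s m q) g x y := by
  classical
  -- basic facts
  have hbq : Basic α q := V.basic hq
  have hgr := hbq.gr
  have hbp : ∀ n, Basic α (pn n) := fun n => by
    obtain ⟨j, hj⟩ := hpn n
    exact V.basic hj
  have hcp := hB.cp
  have hclopen : ∀ K ∈ q.R, K ∩ s.Y ∈ q.R := hcp.cut
  have hold : old pn ⊆ s.Y := by
    intro x hx
    obtain ⟨n, hn⟩ := mem_iUnion.1 hx
    exact (hs.cp n).sub hn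
  obtain ⟨hYp, hPF, hCS⟩ := bel_cl hs hbp hle hbq hB
  -- the letter `m` in the sequence
  have hS : m ∈ ⋃ n, (pn n).S := hs.S ▸ hm
  obtain ⟨n0, hn0⟩ := mem_iUnion.1 hS
  have hmn : ∀ n, n0 ≤ n → m ∈ (pn n).S := by
    intro n hn
    exact (Le.seq hbp hle hn).S hn0
  have hV : ∀ n, n0 ≤ n → Nice (b m) (V α b m) ∧ Dec (b m) (res (pn n) m) ∧
      (pn n).h m '' (pn n).Y = ev (b m) (res (pn n) m) := by
    intro n hn
    obtain ⟨j, hj⟩ := hpn n
    exact ((mem_V.1 hj).2 m (hmn n hn)).2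
  have hnice := (hV n0 le_rfl).1
  have hoY : ∀ x ∈ old pn, ∃ n, n0 ≤ n ∧ x ∈ (pn n).Y := by
    intro x hx
    obtain ⟨n, hn⟩ := mem_iUnion.1 hx
    exact ⟨max n0 n, le_max_left _ _, (Le.seq hbp hle (le_max_right n0 n)).cp.sub hn⟩
  have hle' : ∀ n, Le q (res (pn n) m) := fun n => bel_le hs hbp hle hbq hB n
  have hevcl : Cl q.Y q.R (ev (b m) q) := hnice.closed q hq hD
  -- the images of the old points
  have hCold : ∀ x ∈ old pn, s.h m x ∈ ev (b m) q := by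
    intro x hx
    obtain ⟨n, hn, hxn⟩ := hoY x hx
    rw [hs.h n m (hmn n hn) x hxn]
    have h1 : (pn n).h m x ∈ ev (b m) (res (pn n) m) := by
      rw [← (hV n hn).2.2]; exact ⟨x, hxn, rfl⟩
    exact ev_mono hbq ((hbp n).res m) (hle' n) h1
  have hCev : s.h m '' s.Y ⊆ ev (b m) q := by
    rintro _ ⟨x, hx, rfl⟩
    by_cases hxo : x ∈ old pn
    · exact hCold x hxo
    · by_contra hne
      have hxY : s.h m x ∈ q.Y := hcp.sub ((hs.basic.ce m hm).maps x hx)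
      obtain ⟨K0, hK0, hxK0, hdis⟩ := hevcl.2 _ hxY hne
      have hK1 : K0 ∩ s.Y ∈ s.R := (hcp.ring _).2 ⟨hclopen K0 hK0, inter_subset_right⟩
      obtain ⟨z, hzK, ⟨x', hx', rfl⟩, hzo⟩ := hs.acc m hm _ ⟨x, hx, rfl⟩
        (hs.LL m hm x hx hxo) _ hK1 ⟨hxK0, (hs.basic.ce m hm).maps x hx⟩
      have hxo' : x' ∈ old pn := by
        by_contra h
        exact hs.LL m hm x' hx' h hzo
      have h2 : s.h m x' ∈ K0 ∩ ev (b m) q := ⟨hzK.1, hCold x' hxo'⟩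
      rw [hdis] at h2
      exact h2
  have hevold : ∀ y ∈ ev (b m) q, y ∈ old pn → y ∈ s.h m '' s.Y := by
    intro y hy hyo
    obtain ⟨n, hn, hyn⟩ := hoY y hyo
    have h1 : y ∈ ev (b m) q ∩ (res (pn n) m).Y := ⟨hy, hyn⟩
    rw [ev_inter hnice (fun p hp => V.basic hp) hq ((hbp n).res m) (hle' n) (hV n hn).2.1,
      ← (hV n hn).2.2] at h1
    obtain ⟨x, hx, rfl⟩ := h1
    exact ⟨x, (hs.cp n).sub hx, hs.h n m (hmn n hn) x hx⟩
  -- the sets
  set C : Set Ω := s.h m '' s.Y with hCdef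
  set B : Set Ω := ev (b m) q \ C with hBdef
  set Yp : Set Ω := q.Y \ old pn with hYpdef
  set A : Set Ω := q.Y \ s.Y with hAdef
  have hCs : C ⊆ s.Y := by
    rintro _ ⟨x, hx, rfl⟩
    exact (hs.basic.ce m hm).maps x hx
  have hBo : ∀ y ∈ B, y ∉ old pn := fun y hy hyo => hy.2 (hevold y hy.1 hyo)
  have hBY : B ⊆ q.Y := fun y hy => hevcl.1 hy.1
  have hBYp : B ⊆ Yp := fun y hy => ⟨hBY hy, hBo y hy⟩
  have hAYp : A ⊆ Yp := fun y hy => ⟨hy.1, fun h => hy.2 (hold h)⟩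
  have hAq : ∀ K ∈ q.R, K ∩ A ∈ q.R := by
    intro K0 hK0
    have h1 : K0 ∩ A = K0 \ (K0 ∩ s.Y) := by
      ext x
      constructor
      · rintro ⟨hx, hx'⟩
        exact ⟨hx, fun h => hx'.2 h.2⟩
      · rintro ⟨hx, hx'⟩
        exact ⟨hx, hgr.sub K0 hK0 hx, fun h => hx' ⟨hx, h⟩⟩
    rw [h1]
    exact hgr.df _ hK0 _ (hclopen K0 hK0)
  have hCcl : Cl q.Y q.R C := by
    refine ⟨fun x hx => hcp.sub (hCs hx), ?_⟩
    intro x hx hxC
    by_cases hxs : x ∈ s.Y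
    · obtain ⟨K0, hK0, hxK0, hdis⟩ := (hs.basic.ce m hm).closed.2 x hxs hxC
      exact ⟨K0, ((hcp.ring K0).1 hK0).1, hxK0, hdis⟩
    · obtain ⟨K0, hK0, hxK0⟩ := hgr.cov x hx
      refine ⟨K0 ∩ A, hAq K0 hK0, ⟨hxK0, hx, hxs⟩, ?_⟩
      ext y
      simp only [mem_inter_iff, mem_empty_iff_false, iff_false, not_and]
      rintro ⟨_, hy⟩ hyC
      exact hy.2 (hCs hyC)
  have hBcl : Cl q.Y q.R B := by
    have h1 : Cl q.Y q.R (B ∩ s.Y) := by
      refine Cl.of_finite hgr (fun x hx => hBY hx.1) ?_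
      intro K0 hK0
      have hK1 : K0 ∩ s.Y ∈ s.R := (hcp.ring _).2 ⟨hclopen K0 hK0, inter_subset_right⟩
      refine (hs.fin _ hK1).subset ?_
      rintro x ⟨hxK, hxB, hxs⟩
      exact ⟨⟨hxK, hxs⟩, hBo x hxB⟩
    refine ⟨hBY, ?_⟩
    intro y hy hyB
    by_cases hye : y ∈ ev (b m) q
    · have hyC : y ∈ C := by
        by_contra h
        exact hyB ⟨hye, h⟩
      obtain ⟨K1, hK1, hyK1, hdis⟩ := h1.2 y hy (fun h => hyB h.1)
      refine ⟨K1 ∩ s.Y, hclopen K1 hK1, ⟨hyK1, hCs hyC⟩, ?_⟩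
      ext z
      simp only [mem_inter_iff, mem_empty_iff_false, iff_false, not_and]
      rintro ⟨hzK, hzs⟩ hzB
      have h2 : z ∈ K1 ∩ (B ∩ s.Y) := ⟨hzK, hzB, hzs⟩
      rw [hdis] at h2
      exact h2
    · obtain ⟨K1, hK1, hyK1, hdis⟩ := hevcl.2 y hy hye
      refine ⟨K1, hK1, hyK1, ?_⟩
      ext z
      simp only [mem_inter_iff, mem_empty_iff_false, iff_false, not_and]
      intro hzK hzB
      have h2 : z ∈ K1 ∩ ev (b m) q := ⟨hzK, hzB.1⟩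
      rw [hdis] at h2
      exact h2
  have hCB : C ∩ B = ∅ := by
    ext y
    simp only [mem_inter_iff, mem_empty_iff_false, iff_false, not_and]
    exact fun hy hyB => hyB.2 hy
  -- the ranks
  obtain ⟨r1, hr1, hr1le, -⟩ := exists_rank hgr hYp
  have hr1A : ∀ x ∈ A, r1 x = q.r x := by
    have h1 : GR A (tr q.R A) q.r := hgr.clopen sdiff_subset hAq
    have hA' : ∀ K ∈ tr q.R Yp, K ∩ A ∈ tr q.R Yp := by
      rintro _ ⟨K0, hK0, rfl⟩
      refine ⟨K0 ∩ A, hAq K0 hK0, ?_⟩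
      ext x
      simp only [mem_inter_iff]
      tauto
    have h2 : GR A (tr (tr q.R Yp) A) r1 := hr1.clopen hAYp hA'
    rw [tr_tr hAYp] at h2
    exact h2.rank_unique h1
  have hA' : ∀ K ∈ tr q.R Yp, K ∩ A ∈ tr q.R Yp := by
    rintro _ ⟨K0, hK0, rfl⟩
    refine ⟨K0 ∩ A, hAq K0 hK0, ?_⟩
    ext x
    simp only [mem_inter_iff]
    tauto
  have hrB : GR B (tr (tr q.R Yp) B) r' := by
    rw [tr_tr hBYp]
    have h1 : ∀ O ∈ tr q.R (ev (b m) q), O ∩ B ∈ tr q.R (ev (b m) q) := by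
      rintro _ ⟨K0, hK0, rfl⟩
      obtain ⟨K', hK', hc', hb'⟩ := hgr.glue hCcl hBcl hCB hgr.emp hK0
      refine ⟨K', hK', ?_⟩
      ext x
      constructor
      · rintro ⟨⟨hxK, hxe⟩, hxB⟩
        have h2 : x ∈ K' ∩ B := by rw [hb']; exact ⟨hxK, hxB⟩
        exact ⟨h2.1, hxe⟩
      · rintro ⟨hxK, hxe⟩
        have hxC : x ∉ C := by
          intro hxC
          have h2 : x ∈ K' ∩ C := ⟨hxK, hxC⟩
          rw [hc'] at h2
          exact h2.1
        have h2 : x ∈ K' ∩ B := ⟨hxK, hxe, hxC⟩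
        rw [hb'] at h2
        exact ⟨⟨h2.1, hxe⟩, h2.2⟩
    have h2 : GR B (tr (tr q.R (ev (b m) q)) B) r' := hr'.clopen sdiff_subset h1
    rwa [tr_tr sdiff_subset] at h2
  have hTA : Tall α (tr q.R Yp) A r1 := by
    rintro ρ hρ _ ⟨K0, hK0, rfl⟩
    obtain ⟨x, hx, hxK, hxr⟩ := hT ρ hρ K0 hK0
    have hxA : x ∈ A := ⟨hevcl.1 hx.1, hx.2⟩
    refine ⟨x, hxA, fun h => hxK h.1, ?_⟩
    rw [hr1A x hxA]
    refine hxr.trans ?_
    have hself : Cl q.Y q.R q.Y := Cl.self hgr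
    have h3 : GR q.Y (tr q.R q.Y) q.r := hgr.clopen le_rfl fun K0 hK0 => by
      rw [inter_eq_left.2 (hgr.sub K0 hK0)]; exact hK0
    exact rank_mono hgr hevcl hself hevcl.1 hr' h3 x hx.1
  have hTB : Tall α (tr q.R Yp) B r' := by
    rintro ρ hρ _ ⟨K0, hK0, rfl⟩
    obtain ⟨x, hx, hxK, hxr⟩ := hT ρ hρ K0 hK0
    exact ⟨x, ⟨hx.1, fun h => hx.2 (hCs h)⟩, fun h => hxK h.1, hxr⟩
  have hP : Proper (tr q.R Yp) (BG pn s m q) := by
    rintro _ ⟨K0, hK0, rfl⟩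
    refine (hB.pr K0 hK0).subset ?_
    rintro g ⟨x, hx, y, hy, hg⟩
    exact ⟨x, hx.1, y, hy.1, hg⟩
  have hd : ∀ x ∈ A, ∀ y, ¬ BG pn s m q m x y := by
    rintro x hx y ⟨_, _, h1 | h1⟩
    · exact lt_irrefl _ h1.1
    · exact hx.2 h1.2.1
  have hrn : ∀ x ∈ B, ∀ y, ¬ BG pn s m q m y x := by
    rintro x hx y ⟨_, _, h1 | h1⟩
    · exact lt_irrefl _ h1.1
    · exact hx.2 ⟨y, h1.2.1, h1.2.2.symm⟩
  have hKp : K ∩ Yp ∈ tr q.R Yp := ⟨K, hK, rfl⟩
  obtain ⟨h2, hiso, hPF', hF', hP', hctl⟩ := ping_pong hα hr1 (hbq.cY.mono sdiff_subset)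
    (fun x _ => (hr1le x).trans_lt (hbq.ra x)) hPF hCS hB.fr hP hAYp hA'
    (Cl.tr hYp hBcl hBYp) hrB hTA hTB hd hrn hKp
  rw [tr_tr hAYp, tr_tr hBYp] at hiso
  -- the new map
  set h' : Ω → Ω := fun x => if x ∈ s.Y then s.h m x else if x ∈ q.Y then h2 x else x with hh'
  have hh1 : ∀ x ∈ s.Y, h' x = s.h m x := fun x hx => if_pos hx
  have hh2 : ∀ x ∈ q.Y \ s.Y, h' x = h2 x := fun x hx => by
    simp only [hh', if_neg hx.2, if_pos hx.1]
  have hh3 : ∀ x, x ∉ q.Y → h' x = x := fun x hx => by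
    simp only [hh', if_neg (fun h => hx (hcp.sub h)), if_neg hx]
  have hce := hs.basic.ce m hm
  obtain ⟨hCE, himg⟩ := glue_ce (h' := h') hbq hcp.sub hclopen hce.maps hce.inj
    (fun K0 hK0 hKs => by
      obtain ⟨K1, hK1, he⟩ := hce.img K0 ((hcp.ring K0).2 ⟨hK0, hKs⟩)
      exact ⟨K1, ((hcp.ring K1).1 hK1).1, he⟩)
    (fun K0 hK0 => by
      have h3 := hce.pre (K0 ∩ s.Y) ((hcp.ring _).2 ⟨hclopen K0 hK0, inter_subset_right⟩)
      have h4 : {x | x ∈ s.Y ∧ s.h m x ∈ K0} = {x | x ∈ s.Y ∧ s.h m x ∈ K0 ∩ s.Y} := by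
        ext x
        constructor
        · rintro ⟨hx, hxK⟩
          exact ⟨hx, hxK, hce.maps x hx⟩
        · rintro ⟨hx, hxK⟩
          exact ⟨hx, hxK.1⟩
      rw [h4]
      exact ((hcp.ring _).1 h3).1)
    hCcl hBcl hCB hiso hh1 hh2
  have himg' : h' '' q.Y = ev (b m) q := by
    rw [himg]
    exact union_sdiff_cancel hCev
  -- the new condition
  have hlq : ∀ l ∈ q.S, l < m := V.letters hq
  have hmq : m ∉ q.S := fun h => lt_irrefl _ (hlq m h)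
  set q' : Cnd Ω I := ⟨q.Y, q.R, q.r, insert m q.S, fun l => if l = m then h' else q.h l⟩ with hq'
  have hq'm : q'.h m = h' := if_pos rfl
  have hq'l : ∀ l, l ≠ m → q'.h l = q.h l := fun l hl => if_neg hl
  have hbq' : Basic α q' := by
    refine ⟨hbq.cY, hbq.cS.insert m, hbq.gr, hbq.ra, hbq.r0, ?_, ?_, ?_⟩
    · rintro l (rfl | hl)
      · rw [hq'm]; exact hCE
      · rw [hq'l l (hlq l hl).ne]; exact hbq.ce l hl
    · intro l hl
      have hlm : l ≠ m := fun h => hl (Or.inl h)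
      rw [hq'l l hlm]
      exact hbq.h0 l fun h => hl (Or.inr h)
    · rintro l (rfl | hl) x hx
      · rw [hq'm]; exact hh3 x hx
      · rw [hq'l l (hlq l hl).ne]; exact hbq.h1 l hl x hx
  have hres : res q' m = q := by
    refine Cnd.ext rfl rfl rfl ?_ ?_
    · ext l
      constructor
      · rintro ⟨rfl | hl, hlm⟩
        · exact absurd hlm (lt_irrefl _)
        · exact hl
      · intro hl
        exact ⟨Or.inr hl, hlq l hl⟩
    · funext l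
      change (if l < m then q'.h l else id) = q.h l
      split_ifs with hlm
      · exact hq'l l hlm.ne
      · exact (hbq.h0 l fun h => hlm (hlq l h)).symm
  have hV' : q' ∈ V α b i := by
    rw [mem_V]
    refine ⟨hbq', ?_⟩
    rintro j (rfl | hj)
    · refine ⟨hmi, hnice, ?_, ?_⟩
      · rw [hres]; exact hD
      · rw [hq'm, hres]; exact himg'
    · have hjm := hlq j hj
      have h3 : res q' j = res q j := by
        rw [← hres, res_res hjm.le]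
      obtain ⟨-, h4, h5, h6⟩ := (mem_V.1 hq).2 j hj
      refine ⟨hjm.trans hmi, h4, ?_, ?_⟩
      · rw [h3]; exact h5
      · rw [h3, hq'l j hjm.ne]; exact h6
  -- the graph
  have hG : ∀ l x y, BG pn s i q' l x y → addE (BG pn s m q) m A h2 l x y := by
    rintro l x y ⟨hl, hxo, ⟨hli, hxY, hy⟩ | ⟨hil, hxs, hy⟩⟩
    · rcases (hmax l hl hli).lt_or_eq with hlm | rfl
      · refine Or.inl ⟨hl, hxo, Or.inl ⟨hlm, hxY, ?_⟩⟩
        rw [hy, hq'l l hlm.ne]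
      · rw [hq'm] at hy
        by_cases hxs : x ∈ s.Y
        · refine Or.inl ⟨hl, hxo, Or.inr ⟨le_rfl, hxs, ?_⟩⟩
          rw [hy, hh1 x hxs]
        · refine Or.inr ⟨rfl, ⟨hxY, hxs⟩, ?_⟩
          rw [hy, hh2 x ⟨hxY, hxs⟩]
    · exact Or.inl ⟨hl, hxo, Or.inr ⟨(hmi.trans_le hil).le, hxs, hy⟩⟩
  have hsupp : ∀ l x y, addE (BG pn s m q) m A h2 l x y → x ∈ Yp ∧ y ∈ Yp := by
    rintro l x y (h3 | ⟨-, hx, rfl⟩)
    · exact hCS.1 l x y h3
    · exact ⟨hAYp hx, hBYp (hiso.1.mapsTo hx)⟩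
  have hpath : ∀ g x y, Acts (BG pn s i q') g x y → (g = 1 ∧ y = x) ∨ (x ∈ Yp ∧ y ∈ Yp) := by
    intro g x y hg
    have hg' := Acts.mono hG hg
    by_cases hx : x ∈ Yp
    · right
      exact ⟨hx, (Acts.stay (fun l u v huv => ⟨fun _ => (hsupp l u v huv).2,
        fun _ => (hsupp l u v huv).1⟩) hg').1 hx⟩
    · left
      exact h28_acts_out hsupp hg' hx
  refine ⟨q', hV', ⟨⟨hcp.sub, hcp.ring, hcp.cut, hcp.rk⟩, ?_, ?_, ?_, ?_, ?_⟩, hres, ?_⟩
  · intro l hl hli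
    rcases (hmax l hl hli).lt_or_eq with hlm | rfl
    · exact Or.inr (hB.S l hl hlm)
    · exact Or.inl rfl
  · intro l hl hli x hx
    rcases (hmax l hl hli).lt_or_eq with hlm | rfl
    · rw [hq'l l hlm.ne]; exact hB.h l hl hlm x hx
    · rw [hq'm]; exact hh1 x hx
  · intro l hl hli x hx hxo
    rcases (hmax l hl hli).lt_or_eq with hlm | rfl
    · rw [hq'l l hlm.ne]; exact hB.out l hl hlm x hx hxo
    · rw [hq'm]
      by_cases hxs : x ∈ s.Y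
      · rw [hh1 x hxs]; exact hs.LL l hl x hxs hxo
      · rw [hh2 x ⟨hx, hxs⟩]; exact hBo _ (hiso.1.mapsTo ⟨hx, hxs⟩)
  · exact Free.mono hG hF'
  · intro K0 hK0
    refine ((hP' (K0 ∩ Yp) ⟨K0, hK0, rfl⟩).union (finite_singleton 1)).subset ?_
    rintro g ⟨x, hx, y, hy, hg⟩
    rcases hpath g x y hg with h3 | ⟨h3, h4⟩
    · exact Or.inr h3.1
    · exact Or.inl ⟨x, ⟨hx, h3⟩, y, ⟨hy, h4⟩, Acts.mono hG hg⟩
  · intro x hx y hy g hg
    rcases hpath g x y hg with ⟨rfl, rfl⟩ | ⟨h3, h4⟩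
    · exact Acts.one _
    · exact hctl x ⟨hx, h3⟩ y ⟨hy, h4⟩ g (Acts.mono hG hg)

end L

end Pool.Agent.Helper33.QB
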